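import Pool.Agent.H46.CH.AT
import Pool.Agent.H69.VR.MGram
import Pool.Agent.H1.VR.FR
import Pool.Agent.H60.VR.NE

/-!
# The regular level, assembled
-/

set_option autoImplicit false

namespace Pool.Agent.H75.CH

open Classical Pool.Agent.H8.VR Pool.Agent.H69.VR Pool.Agent.H46.CH

lemma evPer_pos {X : Set ℕ} (h : EvPer X) : EvPer {n | 0 < n ∧ n ∈ X} := by
  obtain ⟨m, p, hp, hX⟩ := h
  refine ⟨m + 1, p, hp, fun n hn => ?_⟩
  have h1 := hX n (by omega)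
  constructor
  · rintro ⟨_, h2⟩
    exact ⟨by omega, h1.1 h2⟩
  · rintro ⟨_, h2⟩
    exact ⟨by omega, h1.2 h2⟩

lemma regG (hN2 : T_N2) (hES : T_ES) {N Q : Type} [Finite N] [Finite Q] (G : Gram N Q)
    (hG : Rigid G) (m : ℕ) (s₀ : N) (φ : C2) : EvPer (specG G m s₀ φ) := by
  obtain ⟨L, T, C, O, _, _, _, _, _, _, S, K, Ok, hS, hn⟩ := hN2 N Q G m s₀ φ
  have h1 := hES N Q L T O C S K s₀ Ok ?_ ?_ ?_
  · have h2 := evPer_pos h1
    have h3 : specG G m s₀ φ = {n | 0 < n ∧ n ∈ {n | SysMem S K s₀ Ok n}} := by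
      ext n
      exact hn n
    rw [h3]
    exact h2
  · intro o q
    obtain ⟨o', ho', -, -, -, hf, -, -⟩ := hS o
    rw [hf]
    exact (hG o' ho').1 q
  · intro o q
    obtain ⟨o', ho', -, -, -, -, hg, -⟩ := hS o
    rw [hg]
    exact (hG o' ho').2.1 q
  · intro o x y hx hy
    obtain ⟨o', ho', -, -, -, -, -, hD⟩ := hS o
    rw [hD]
    exact (hG o' ho').2.2 x y hx hy

lemma regM (hN2 : T_N2) (hES : T_ES) {N Q : Type} [Finite N] [Finite Q] (G : Gram N Q)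
    (hG : Rigid G) (m : ℕ) (s₀ : N) (Ψ : MS) (φ : C2) (hΨ : Ψ.Below m) :
    EvPer (specM G m s₀ Ψ φ) := by
  have := MS.finT Q (Ψ.clo Ψ.vb)
  have : Finite (Option (N × (Ψ.clo Ψ.vb).T Q)) := inferInstance
  rw [specM_eq N Q G m s₀ Ψ hΨ φ]
  refine regG hN2 hES _ ?_ m none φ
  intro y hy
  obtain ⟨o, ho, a, b, -, -, -, -, k5, k6, k7, -⟩ := mem_ops.1 hy
  obtain ⟨h1, h2, h3⟩ := hG o ho
  rw [k5, k6, k7]
  exact ⟨h1, h2, h3⟩

lemma pair_pos {x y : ℕ} (hx : 0 < x) : 0 < Nat.pair x y :=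
  lt_of_lt_of_le hx (Nat.left_le_pair x y)

theorem pf_REG (hN2 : T_N2) (hES : T_ES) : Pool.Agent.H46.CH.T_REG := by
  refine ⟨fun N Q _ _ G hG m s₀ Ψ φ hΨ => regM hN2 hES G hG m s₀ Ψ φ hΨ, ?_, ?_⟩
  · intro Ψ φ hΨ
    rw [specFM_eq Pool.Agent.H1.VR.fr]
    refine regM hN2 hES forG ?_ 2 true Ψ φ hΨ
    intro o ho
    simp only [forG, List.mem_cons, List.not_mem_nil, or_false] at ho
    rcases ho with rfl | rfl <;>
      exact ⟨fun _ => rfl, fun _ => rfl, fun x y hx _ => pair_pos hx⟩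
  · intro k Ψ φ hΨ
    rw [specEM_eq Pool.Agent.H60.VR.pf_NE]
    refine regM hN2 hES (neG k) ?_ k (Fin.last k) Ψ φ hΨ
    intro o ho
    simp only [neG, List.mem_flatMap, List.mem_map] at ho
    obtain ⟨a, -, b, -, c, -, u, -, rfl⟩ := ho
    exact ⟨fun _ => rfl, fun _ => rfl, fun x y hx _ => pair_pos hx⟩

end Pool.Agent.H75.CH
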